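import Mathlib

set_option autoImplicit false

/-!
# Truncated expansions of products and the continuity theorem
-/

namespace Run7.h854.WP

open Finset Filter Topology

/-- the elementary symmetric sum of order `j` -/
noncomputable def ee {ι : Type*} (T : Finset ι) (x : ι → ℝ) (j : ℕ) : ℝ :=
  ∑ S ∈ T.powersetCard j, ∏ p ∈ S, x p

lemma ee_zero {ι : Type*} (T : Finset ι) (x : ι → ℝ) : ee T x 0 = 1 := by
  unfold ee
  rw [powersetCard_zero, sum_singleton, prod_empty]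

lemma ee_nonneg {ι : Type*} {T : Finset ι} {x : ι → ℝ} (hx : ∀ p ∈ T, 0 ≤ x p) (j : ℕ) :
    0 ≤ ee T x j :=
  sum_nonneg fun S hS => prod_nonneg fun p hp => hx p ((mem_powersetCard.1 hS).1 hp)

lemma ee_insert {ι : Type*} [DecidableEq ι] {T : Finset ι} {q : ι} (hq : q ∉ T) (x : ι → ℝ) (j : ℕ) :
    ee (insert q T) x (j + 1) = ee T x (j + 1) + x q * ee T x j := by
  unfold ee
  rw [powersetCard_succ_insert hq, sum_union, sum_image, mul_sum]
  · congr 1
    refine sum_congr rfl fun S hS => ?_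
    rw [prod_insert (fun h => hq ((mem_powersetCard.1 hS).1 h))]
  · intro S hS S' hS' h
    have h1 : q ∉ S := fun h => hq ((mem_powersetCard.1 hS).1 h)
    have h2 : q ∉ S' := fun h => hq ((mem_powersetCard.1 hS').1 h)
    rw [← erase_insert h1, ← erase_insert h2, h]
  · rw [disjoint_left]
    intro S hS hS'
    obtain ⟨S'', _, rfl⟩ := mem_image.1 hS'
    exact hq ((mem_powersetCard.1 hS).1 (mem_insert_self _ _))

/-- **Bonferroni's inequalities** -/
theorem bonf {ι : Type*} [DecidableEq ι] (T : Finset ι) (x : ι → ℝ) (hx : ∀ p ∈ T, 0 ≤ x p ∧ x p ≤ 1) :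
    ∀ m : ℕ, 0 ≤ (-1) ^ m * (∑ j ∈ range (m + 1), (-1) ^ j * ee T x j - ∏ p ∈ T, (1 - x p)) ∧
      (-1) ^ m * (∑ j ∈ range (m + 1), (-1) ^ j * ee T x j - ∏ p ∈ T, (1 - x p)) ≤ ee T x (m + 1) := by
  induction T using Finset.induction_on with
  | empty =>
    intro m
    have h1 : ∀ j : ℕ, ee (∅ : Finset ι) x (j + 1) = 0 := by
      intro j
      unfold ee
      rw [powersetCard_eq_empty.2 (by simp), sum_empty]
    have h2 : ∑ j ∈ range (m + 1), (-1 : ℝ) ^ j * ee (∅ : Finset ι) x j = 1 := by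
      rw [sum_range_succ', ee_zero]
      simp [h1]
    rw [h2, h1]
    simp
  | insert q T hq ih =>
    have ihT := ih (fun p hp => hx p (mem_insert_of_mem hp))
    have hxq := hx q (mem_insert_self _ _)
    have hS : ∀ m : ℕ, ∑ j ∈ range (m + 1 + 1), (-1 : ℝ) ^ j * ee (insert q T) x j =
        ∑ j ∈ range (m + 1 + 1), (-1 : ℝ) ^ j * ee T x j -
          x q * ∑ j ∈ range (m + 1), (-1 : ℝ) ^ j * ee T x j := by
      intro m
      rw [sum_range_succ' _ (m + 1), sum_range_succ' (fun j => (-1 : ℝ) ^ j * ee T x j) (m + 1),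
        ee_zero, ee_zero, mul_sum]
      have h3 : ∀ j, (-1 : ℝ) ^ (j + 1) * ee (insert q T) x (j + 1) =
          (-1 : ℝ) ^ (j + 1) * ee T x (j + 1) - x q * ((-1 : ℝ) ^ j * ee T x j) := by
        intro j
        rw [ee_insert hq, pow_succ]
        ring
      rw [sum_congr rfl (fun j _ => h3 j), sum_sub_distrib]
      ring
    intro m
    rw [prod_insert hq]
    rcases m with _ | m
    · obtain ⟨h1, h2⟩ := ihT 0
      simp only [zero_add, range_one, sum_singleton, pow_zero, one_mul, ee_zero] at h1 h2 ⊢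
      have h3 := ee_insert hq x 0
      rw [zero_add, ee_zero, mul_one] at h3
      rw [h3]
      have h4 : 0 ≤ ∏ p ∈ T, (1 - x p) := prod_nonneg fun p hp => by
        have := hx p (mem_insert_of_mem hp)
        linarith
      constructor
      · nlinarith
      · nlinarith
    · obtain ⟨h1, h2⟩ := ihT (m + 1)
      obtain ⟨h3, h4⟩ := ihT m
      rw [hS m, ee_insert hq]
      set P := ∏ p ∈ T, (1 - x p)
      set A := ∑ j ∈ range (m + 1 + 1), (-1 : ℝ) ^ j * ee T x j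
      set B := ∑ j ∈ range (m + 1), (-1 : ℝ) ^ j * ee T x j
      have h5 : (-1 : ℝ) ^ (m + 1) * (A - x q * B - (1 - x q) * P) =
          (-1) ^ (m + 1) * (A - P) + x q * ((-1) ^ m * (B - P)) := by
        rw [pow_succ]
        ring
      rw [h5]
      constructor
      · have := mul_nonneg hxq.1 h3
        linarith
      · have := mul_le_mul_of_nonneg_left h4 hxq.1
        linarith

lemma bonf_abs {ι : Type*} [DecidableEq ι] (T : Finset ι) (x : ι → ℝ)
    (hx : ∀ p ∈ T, 0 ≤ x p ∧ x p ≤ 1) (m : ℕ) :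
    |∏ p ∈ T, (1 - x p) - ∑ j ∈ range (m + 1), (-1) ^ j * ee T x j| ≤ ee T x (m + 1) := by
  obtain ⟨h1, h2⟩ := bonf T x hx m
  rw [abs_sub_comm]
  have h3 : |∑ j ∈ range (m + 1), (-1) ^ j * ee T x j - ∏ p ∈ T, (1 - x p)| =
      |(-1) ^ m * (∑ j ∈ range (m + 1), (-1) ^ j * ee T x j - ∏ p ∈ T, (1 - x p))| := by
    rw [abs_mul, abs_pow, abs_neg, abs_one, one_pow, one_mul]
  rw [h3, abs_of_nonneg h1]
  exact h2

/-- `(j + 1) e_(j+1) ≤ e_j e_1` -/
lemma ee_succ_le {ι : Type*} [DecidableEq ι] (T : Finset ι) (x : ι → ℝ) (hx : ∀ p ∈ T, 0 ≤ x p) :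
    ∀ j : ℕ, ((j : ℝ) + 1) * ee T x (j + 1) ≤ ee T x j * ∑ p ∈ T, x p := by
  induction T using Finset.induction_on with
  | empty =>
    intro j
    unfold ee
    rw [powersetCard_eq_empty.2 (by simp), sum_empty]
    simp
  | insert q T hq ih =>
    have ihT := ih (fun p hp => hx p (mem_insert_of_mem hp))
    have hxq := hx q (mem_insert_self _ _)
    have hT : ∀ p ∈ T, 0 ≤ x p := fun p hp => hx p (mem_insert_of_mem hp)
    intro j
    rw [sum_insert hq]
    rcases j with _ | j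
    · have h1 := ihT 0
      have h2 := ee_insert hq x 0
      rw [zero_add] at h2
      rw [ee_zero] at h1 h2 ⊢
      rw [zero_add, h2]
      rw [zero_add] at h1
      push_cast at h1 ⊢
      nlinarith
    · have h1 := ihT (j + 1)
      have h2 := ihT j
      rw [ee_insert hq x (j + 1), ee_insert hq x j]
      have h3 := ee_nonneg hT (j + 1)
      have h4 := ee_nonneg hT j
      push_cast at h1 ⊢
      have h5 : x q * (((j : ℝ) + 1) * ee T x (j + 1)) ≤ x q * (ee T x j * ∑ p ∈ T, x p) :=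
        mul_le_mul_of_nonneg_left h2 hxq
      have h6 : 0 ≤ x q * x q * ee T x j := by positivity
      nlinarith

lemma ee_le {ι : Type*} [DecidableEq ι] (T : Finset ι) (x : ι → ℝ) (hx : ∀ p ∈ T, 0 ≤ x p) (j : ℕ) :
    ee T x j ≤ (∑ p ∈ T, x p) ^ j / j.factorial := by
  induction j with
  | zero => rw [ee_zero]; simp
  | succ j ih =>
    have h1 := ee_succ_le T x hx j
    have h0 : 0 ≤ ∑ p ∈ T, x p := sum_nonneg hx
    have h2 : ee T x j * ∑ p ∈ T, x p ≤ (∑ p ∈ T, x p) ^ j / j.factorial * ∑ p ∈ T, x p :=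
      mul_le_mul_of_nonneg_right ih h0
    have h3 : (0 : ℝ) < (j : ℝ) + 1 := by positivity
    rw [Nat.factorial_succ, pow_succ]
    push_cast
    rw [le_div_iff₀ (by positivity)]
    have h4 : (∑ p ∈ T, x p) ^ j / j.factorial * ∑ p ∈ T, x p =
        (∑ p ∈ T, x p) ^ j * (∑ p ∈ T, x p) / j.factorial := by ring
    rw [h4] at h2
    have h5 : (0 : ℝ) < j.factorial := by exact_mod_cast Nat.factorial_pos j
    have h6 := h1.trans h2
    rw [le_div_iff₀ h5] at h6
    linarith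

lemma exp_second {x : ℝ} (hx : 0 ≤ x) : |1 - x - Real.exp (-x)| ≤ x ^ 2 := by
  have h1 := Real.add_one_le_exp (-x)
  rw [abs_le]
  constructor
  · have h2 : Real.exp (-x) * (1 + x) ≤ 1 := by
      calc Real.exp (-x) * (1 + x) ≤ Real.exp (-x) * Real.exp x := by
            gcongr
            linarith [Real.add_one_le_exp x]
        _ = 1 := by rw [← Real.exp_add, neg_add_cancel, Real.exp_zero]
    have h3 : 0 < Real.exp (-x) := Real.exp_pos _
    nlinarith
  · nlinarith [sq_nonneg x]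

lemma prod_close {ι : Type*} [DecidableEq ι] (T : Finset ι) (a b : ι → ℝ) (ha : ∀ p ∈ T, 0 ≤ a p ∧ a p ≤ 1)
    (hb : ∀ p ∈ T, 0 ≤ b p ∧ b p ≤ 1) : |∏ p ∈ T, a p - ∏ p ∈ T, b p| ≤ ∑ p ∈ T, |a p - b p| := by
  induction T using Finset.induction_on with
  | empty => simp
  | insert q T hq ih =>
    have ihT := ih (fun p hp => ha p (mem_insert_of_mem hp)) (fun p hp => hb p (mem_insert_of_mem hp))
    have haq := ha q (mem_insert_self _ _)
    have hbq := hb q (mem_insert_self _ _)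
    rw [prod_insert hq, prod_insert hq, sum_insert hq]
    have h1 : 0 ≤ ∏ p ∈ T, b p := prod_nonneg fun p hp => (hb p (mem_insert_of_mem hp)).1
    have h2 : ∏ p ∈ T, b p ≤ 1 := prod_le_one (fun p hp => (hb p (mem_insert_of_mem hp)).1)
      (fun p hp => (hb p (mem_insert_of_mem hp)).2)
    have h3 : a q * ∏ p ∈ T, a p - b q * ∏ p ∈ T, b p =
        a q * (∏ p ∈ T, a p - ∏ p ∈ T, b p) + (a q - b q) * ∏ p ∈ T, b p := by ring
    rw [h3]
    refine (abs_add_le _ _).trans ?_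
    rw [abs_mul, abs_mul, abs_of_nonneg haq.1, abs_of_nonneg h1]
    have h4 : a q * |∏ p ∈ T, a p - ∏ p ∈ T, b p| ≤ 1 * |∏ p ∈ T, a p - ∏ p ∈ T, b p| :=
      mul_le_mul_of_nonneg_right haq.2 (abs_nonneg _)
    have h5 : |a q - b q| * ∏ p ∈ T, b p ≤ |a q - b q| * 1 :=
      mul_le_mul_of_nonneg_left h2 (abs_nonneg _)
    linarith

/-- a product of factors near `1` -/
theorem prod_exp {ι : Type*} [DecidableEq ι] (T : Finset ι) (x : ι → ℝ) (hx : ∀ p ∈ T, 0 ≤ x p ∧ x p ≤ 1) :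
    |∏ p ∈ T, (1 - x p) - Real.exp (-(∑ p ∈ T, x p))| ≤ ∑ p ∈ T, x p ^ 2 := by
  have h1 : Real.exp (-(∑ p ∈ T, x p)) = ∏ p ∈ T, Real.exp (-(x p)) := by
    rw [← Real.exp_sum, sum_neg_distrib]
  rw [h1]
  refine (prod_close T _ _ (fun p hp => ⟨by linarith [(hx p hp).2], by linarith [(hx p hp).1]⟩)
    (fun p hp => ⟨(Real.exp_pos _).le, Real.exp_le_one_iff.2 (by linarith [(hx p hp).1])⟩)).trans ?_
  exact sum_le_sum fun p hp => exp_second (hx p hp).1

/-- bounds for a coefficient by the generating function -/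
lemma coef_bound {a : ℕ → ℝ} (ha : ∀ k, 0 ≤ a k) {A1 G θ : ℝ} (h0 : 0 ≤ θ) (h1 : θ ≤ 1)
    (hA : HasSum (fun k => a k * 1 ^ k) A1) (hG : HasSum (fun k => a k * θ ^ k) G) (k : ℕ) :
    a k * θ ^ k ≤ G - ∑ l ∈ range k, a l * θ ^ l ∧
    G - ∑ l ∈ range k, a l * θ ^ l ≤ a k * θ ^ k + θ ^ (k + 1) * A1 := by
  have hA' : HasSum a A1 := by simpa using hA
  have h2 : HasSum (fun j => a (j + k) * θ ^ (j + k)) (G - ∑ l ∈ range k, a l * θ ^ l) :=
    (hasSum_nat_add_iff' (f := fun k => a k * θ ^ k) k).2 hG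
  constructor
  · have h3 := le_hasSum h2 0 (fun j _ => mul_nonneg (ha _) (pow_nonneg h0 _))
    simpa using h3
  · have h3 : HasSum (fun j => (if j = 0 then a k * θ ^ k else 0) + θ ^ (k + 1) * a (j + k))
        (a k * θ ^ k + θ ^ (k + 1) * (A1 - ∑ l ∈ range k, a l)) := by
      refine HasSum.add ?_ ?_
      · exact hasSum_ite_eq 0 _
      · exact ((hasSum_nat_add_iff' (f := a) k).2 hA').mul_left _
    have h4 := hasSum_le (fun j => ?_) h2 h3
    · refine h4.trans ?_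
      have h5 : 0 ≤ ∑ l ∈ range k, a l := Finset.sum_nonneg fun l _ => ha l
      have h6 : 0 ≤ θ ^ (k + 1) := pow_nonneg h0 _
      nlinarith
    · rcases Nat.eq_zero_or_pos j with hj | hj
      · rw [if_pos hj, hj, zero_add]
        have := mul_nonneg (pow_nonneg h0 (k + 1)) (ha k)
        linarith
      · rw [if_neg (by omega), zero_add, mul_comm]
        refine mul_le_mul_of_nonneg_right ?_ (ha _)
        exact pow_le_pow_of_le_one h0 h1 (by omega)

lemma hasSum_poisson (μ lam θ : ℝ) :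
    HasSum (fun k : ℕ => μ * (Real.exp (-lam) * lam ^ k / k.factorial) * θ ^ k)
      (μ * Real.exp (-(lam * (1 - θ)))) := by
  have h1 : HasSum (fun k : ℕ => (lam * θ) ^ k / (k.factorial : ℝ)) (Real.exp (lam * θ)) := by
    rw [Real.exp_eq_exp_ℝ]
    exact NormedSpace.expSeries_div_hasSum_exp (lam * θ)
  have h2 := h1.mul_left (μ * Real.exp (-lam))
  have e : μ * Real.exp (-lam) * Real.exp (lam * θ) = μ * Real.exp (-(lam * (1 - θ))) := by
    rw [mul_assoc, ← Real.exp_add]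
    congr 2
    ring
  rw [e] at h2
  have h3 : (fun k : ℕ => μ * (Real.exp (-lam) * lam ^ k / k.factorial) * θ ^ k) =
      fun k : ℕ => μ * Real.exp (-lam) * ((lam * θ) ^ k / (k.factorial : ℝ)) := by
    funext k
    rw [mul_pow]
    ring
  rw [h3]
  exact h2

/-- the continuity theorem -/
theorem cont_gf (f : ℕ → ℕ → ℝ) (G : ℕ → ℝ → ℝ) (μ lam : ℝ) (hlam : 0 ≤ lam) (hμ : 0 ≤ μ)
    (hf : ∀ n k, 0 ≤ f n k)
    (hG : ∀ n θ, 0 ≤ θ → θ ≤ 1 → HasSum (fun k => f n k * θ ^ k) (G n θ))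
    (hlim : ∀ θ, 0 ≤ θ → θ ≤ 1 →
      Tendsto (fun n => G n θ) atTop (𝓝 (μ * Real.exp (-(lam * (1 - θ)))))) (k : ℕ) :
    Tendsto (fun n => f n k) atTop (𝓝 (μ * (Real.exp (-lam) * lam ^ k / k.factorial))) := by
  set ρ : ℕ → ℝ := fun k => μ * (Real.exp (-lam) * lam ^ k / k.factorial) with hρ
  have hρ0 : ∀ k, 0 ≤ ρ k := fun k => by rw [hρ]; positivity
  have hρs : ∀ θ, HasSum (fun k => ρ k * θ ^ k) (μ * Real.exp (-(lam * (1 - θ)))) :=
    fun θ => hasSum_poisson μ lam θ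
  change Tendsto (fun n => f n k) atTop (𝓝 (ρ k))
  induction k using Nat.strong_induction_on with
  | _ k ih =>
    have hρ1 : μ * Real.exp (-(lam * (1 - 1))) = μ := by simp
    rw [Metric.tendsto_nhds]
    intro ε hε
    -- choose θ
    obtain ⟨θ, hθ0, hθ1, hθ⟩ : ∃ θ : ℝ, 0 < θ ∧ θ ≤ 1 ∧ θ * (2 * μ + 1) ≤ ε / 2 := by
      refine ⟨min 1 (ε / (2 * (2 * μ + 1))), by positivity, min_le_left _ _, ?_⟩
      calc min 1 (ε / (2 * (2 * μ + 1))) * (2 * μ + 1) ≤ ε / (2 * (2 * μ + 1)) * (2 * μ + 1) :=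
            mul_le_mul_of_nonneg_right (min_le_right _ _) (by positivity)
        _ = ε / 2 := by field_simp
    have hpos : 0 < θ ^ k := pow_pos hθ0 k
    have h1 : Tendsto (fun n => G n θ - ∑ l ∈ range k, f n l * θ ^ l) atTop
        (𝓝 (μ * Real.exp (-(lam * (1 - θ))) - ∑ l ∈ range k, ρ l * θ ^ l)) := by
      refine (hlim θ hθ0.le hθ1).sub (tendsto_finsetSum _ fun l hl => ?_)
      exact (ih l (mem_range.1 hl)).mul_const _
    have h2 := (Metric.tendsto_nhds.1 h1) (θ ^ k * (ε / 4)) (by positivity)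
    have h3 := (hlim 1 zero_le_one le_rfl).eventually_lt_const
      (show μ * Real.exp (-(lam * (1 - 1))) < μ + 1 by rw [hρ1]; linarith)
    filter_upwards [h2, h3] with n h2 h3
    obtain ⟨h4, h5⟩ := coef_bound (hf n) hθ0.le hθ1 (hG n 1 zero_le_one le_rfl) (hG n θ hθ0.le hθ1) k
    obtain ⟨h6, h7⟩ := coef_bound hρ0 hθ0.le hθ1 (hρs 1) (hρs θ) k
    rw [hρ1] at h7
    rw [Real.dist_eq] at h2 ⊢
    set X := G n θ - ∑ l ∈ range k, f n l * θ ^ l with hX
    set Z := μ * Real.exp (-(lam * (1 - θ))) - ∑ l ∈ range k, ρ l * θ ^ l with hZ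
    have h8 : |f n k - ρ k| * θ ^ k ≤ θ ^ k * (ε / 4) + θ ^ k * (θ * (2 * μ + 1)) := by
      rw [← abs_of_nonneg hpos.le, ← abs_mul, abs_of_nonneg hpos.le]
      rw [abs_lt] at h2
      have e1 : θ ^ (k + 1) = θ ^ k * θ := pow_succ _ _
      rw [e1] at h5 h7
      have h9 : θ ^ k * θ * G n 1 ≤ θ ^ k * θ * (μ + 1) :=
        mul_le_mul_of_nonneg_left h3.le (by positivity)
      have h10 : 0 ≤ θ ^ k * θ * μ := by positivity
      have h11 : 0 ≤ θ ^ k * θ := by positivity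
      rw [abs_le]
      constructor <;> nlinarith
    have h9 : |f n k - ρ k| ≤ ε / 4 + θ * (2 * μ + 1) := by
      have e2 : θ ^ k * (ε / 4) + θ ^ k * (θ * (2 * μ + 1)) = (ε / 4 + θ * (2 * μ + 1)) * θ ^ k := by ring
      rw [e2] at h8
      exact le_of_mul_le_mul_right h8 hpos
    linarith

end Run7.h854.WP
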