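import Mathlib
import Pool.Agent.Run7.h854.WP.Law
import Pool.Agent.Run7.h854.WP.Chf

set_option autoImplicit false

/-!
# The limit of the characteristic functions
-/

namespace Run7.h854.WP

open Finset Filter Topology
open scoped Classical
open Pool.Agent.Helper92K9.WI (IsWilson gg)

/-- the tail of the exponential series -/
lemma tail_bound {z : ℝ} (hz : 0 ≤ z) {k : ℕ} (hk : z * Real.exp 2 ≤ k) :
    z ^ k / k.factorial ≤ Real.exp (-(k : ℝ)) := by
  have h1 := Real.pow_div_factorial_le_exp (z * Real.exp 2) (by positivity) k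
  rw [mul_pow, mul_div_right_comm, ← Real.exp_nat_mul] at h1
  have h2 : z ^ k / k.factorial ≤ Real.exp (z * Real.exp 2) / Real.exp (k * 2) := by
    rw [le_div_iff₀ (Real.exp_pos _)]
    exact h1
  refine h2.trans ?_
  rw [← Real.exp_sub]
  apply Real.exp_le_exp.2
  linarith

/-- the main term -/
lemma exponent_lim {lam L D : ℕ → ℝ} (hlam : Tendsto lam atTop atTop)
    (hD : Tendsto (fun n => D n / √(lam n)) atTop (𝓝 0))
    (hC : ∀ᶠ n in atTop, |L n - lam n| ≤ D n) (t : ℝ) :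
    Tendsto (fun n => -(Complex.I * ((t / √(lam n) : ℝ) : ℂ) * (lam n : ℂ)) -
      (1 - Complex.exp (Complex.I * ((t / √(lam n) : ℝ) : ℂ))) * (L n : ℂ)) atTop
      (𝓝 (-((t : ℂ) ^ 2 / 2))) := by
  have hsq : Tendsto (fun n => √(lam n)) atTop atTop := Real.tendsto_sqrt_atTop.comp hlam
  have hτ0 : Tendsto (fun n => |t| / √(lam n)) atTop (𝓝 0) := hsq.const_div_atTop _
  have hb : Tendsto (fun n => |t| ^ 3 / √(lam n) + |t| * (D n / √(lam n))) atTop (𝓝 0) := by
    have h1 := (hsq.const_div_atTop (|t| ^ 3)).add (hD.const_mul |t|)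
    simpa using h1
  rw [tendsto_iff_norm_sub_tendsto_zero]
  refine squeeze_zero' (Eventually.of_forall fun n => norm_nonneg _) ?_ hb
  filter_upwards [hC, hlam.eventually_gt_atTop 0, hτ0.eventually_le_const (zero_lt_one)] with n h1 h2 h3
  set τ : ℝ := t / √(lam n) with hτ
  have hs0 : 0 < √(lam n) := Real.sqrt_pos.2 h2
  have hs2 : √(lam n) ^ 2 = lam n := Real.sq_sqrt h2.le
  have hτa : |τ| = |t| / √(lam n) := by rw [hτ, abs_div, abs_of_pos hs0]
  have hτ2 : τ ^ 2 * lam n = t ^ 2 := by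
    rw [hτ, div_pow, hs2, div_mul_cancel₀ _ h2.ne']
  have hx : ‖Complex.I * (τ : ℂ)‖ = |τ| := by
    rw [norm_mul, Complex.norm_I, one_mul, Complex.norm_real, Real.norm_eq_abs]
  have hx1 : ‖Complex.I * (τ : ℂ)‖ ≤ 1 := by rw [hx, hτa]; exact h3
  have h4 := Complex.exp_bound hx1 (n := 3) (by norm_num)
  rw [hx] at h4
  have h5 : ∑ m ∈ range 3, (Complex.I * (τ : ℂ)) ^ m / (m.factorial : ℂ) =
      1 + Complex.I * (τ : ℂ) - (τ : ℂ) ^ 2 / 2 := by
    rw [sum_range_succ, sum_range_succ, sum_range_succ, sum_range_zero]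
    simp only [Nat.factorial, pow_zero, pow_one, Nat.cast_one, div_one, zero_add]
    rw [mul_pow, Complex.I_sq]
    push_cast
    ring
  rw [h5] at h4
  have h6 : ‖Complex.exp (Complex.I * (τ : ℂ)) - 1‖ ≤ |τ| := by
    have := Real.norm_exp_I_mul_ofReal_sub_one_le (x := τ)
    rwa [Real.norm_eq_abs] at this
  have hτ2c : (τ : ℂ) ^ 2 * (lam n : ℂ) = (t : ℂ) ^ 2 := by exact_mod_cast hτ2
  have h7 : -(Complex.I * (τ : ℂ) * (lam n : ℂ)) - (1 - Complex.exp (Complex.I * (τ : ℂ))) * (L n : ℂ) -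
      -((t : ℂ) ^ 2 / 2) =
      (Complex.exp (Complex.I * (τ : ℂ)) - (1 + Complex.I * (τ : ℂ) - (τ : ℂ) ^ 2 / 2)) * (lam n : ℂ) +
      (Complex.exp (Complex.I * (τ : ℂ)) - 1) * ((L n - lam n : ℝ) : ℂ) := by
    rw [← hτ2c]
    push_cast
    ring
  rw [h7]
  refine (norm_add_le _ _).trans ?_
  rw [norm_mul, norm_mul, Complex.norm_real, Complex.norm_real, Real.norm_of_nonneg h2.le, Real.norm_eq_abs]
  refine add_le_add ?_ ?_
  · have h8 : |τ| ^ 3 * (((Nat.succ 3 : ℕ) : ℝ) * (((Nat.factorial 3 : ℕ) : ℝ) * ((3 : ℕ) : ℝ))⁻¹) ≤ |τ| ^ 3 := by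
      have h9 : 0 ≤ |τ| ^ 3 := by positivity
      have h10 : ((Nat.succ 3 : ℕ) : ℝ) * (((Nat.factorial 3 : ℕ) : ℝ) * ((3 : ℕ) : ℝ))⁻¹ ≤ 1 := by
        norm_num [Nat.factorial]
      exact mul_le_of_le_one_right h9 h10
    have h9 := h4.trans h8
    calc _ ≤ |τ| ^ 3 * lam n := mul_le_mul_of_nonneg_right h9 h2.le
      _ = |t| ^ 3 / √(lam n) := by
          rw [hτa, div_pow]
          rw [eq_div_iff hs0.ne', pow_succ (√(lam n)) 2, hs2]
          field_simp
  · have e9 : |t| * (D n / √(lam n)) = |τ| * D n := by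
      rw [hτa]
      ring
    rw [e9]
    exact mul_le_mul h6 h1 (abs_nonneg _) (abs_nonneg _)

/-- **The limit of the characteristic functions.** -/
theorem chf {X Y : ℕ → ℕ} {T : ℕ → Finset ℕ} {lam : ℕ → ℝ} {P : ℕ → Par}
    (hT : ∀ n, ∀ p ∈ T n, p.Prime ∧ p ≠ 2 ∧ ¬ (p : ℤ) ∣ (P n).q) (hY : ∀ n, ∀ p ∈ T n, p ≤ Y n)
    (hY2 : ∀ᶠ n in atTop, 2 ≤ Y n) (hlam : Tendsto lam atTop atTop) {D : ℕ → ℝ}
    (hD : Tendsto (fun n => D n / √(lam n)) atTop (𝓝 0))
    (hC : ∀ᶠ n in atTop, |∑ p ∈ T n, gg p - lam n| ≤ D n)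
    (hX : ∀ K : ℕ, ∀ᶠ n in atTop, (Y n : ℝ) ^ ((K : ℝ) * √(lam n)) ≤ X n) (t : ℝ) :
    Tendsto (fun n => AvC (X n) (fun a => Complex.exp (Complex.I *
      ((t / √(lam n) * ((cnt (P n) (T n) a : ℝ) - lam n) : ℝ) : ℂ)))) atTop
      (𝓝 (Complex.exp (-((t : ℂ) ^ 2 / 2)))) := by
  set S := ∑' n : ℕ, 1 / (n : ℝ) ^ 2 with hS
  have hS0 : 0 ≤ S := tsum_nonneg fun n => by positivity
  set L : ℕ → ℝ := fun n => ∑ p ∈ T n, gg p with hL
  set B : ℝ := 2 * |t| * Real.exp 2 + 1 with hB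
  have hB1 : 1 ≤ B := by
    have : 0 ≤ 2 * |t| * Real.exp 2 := by positivity
    linarith
  have hsq : Tendsto (fun n => √(lam n)) atTop atTop := Real.tendsto_sqrt_atTop.comp hlam
  have hτ0 : Tendsto (fun n => |t| / √(lam n)) atTop (𝓝 0) := hsq.const_div_atTop _
  have hexp : Tendsto (fun n => Complex.exp (-(Complex.I * ((t / √(lam n) : ℝ) : ℂ) * (lam n : ℂ)) -
      (1 - Complex.exp (Complex.I * ((t / √(lam n) : ℝ) : ℂ))) * (L n : ℂ))) atTop
      (𝓝 (Complex.exp (-((t : ℂ) ^ 2 / 2)))) :=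
    (Complex.continuous_exp.tendsto _).comp (exponent_lim hlam hD hC t)
  -- the errors
  have he1 : Tendsto (fun n => (1 / 2 : ℝ) ^ (⌈B * √(lam n)⌉₊ + 1)) atTop (𝓝 0) := by
    have h0 : Tendsto (fun n => B * √(lam n)) atTop atTop := hsq.const_mul_atTop (by linarith)
    have h2 : Tendsto (fun n => ⌈B * √(lam n)⌉₊) atTop atTop := tendsto_nat_ceil_atTop.comp h0
    have h1 : Tendsto (fun n => ⌈B * √(lam n)⌉₊ + 1) atTop atTop := (tendsto_add_atTop_nat 1).comp h2
    exact (tendsto_pow_atTop_nhds_zero_of_lt_one (by norm_num) (by norm_num)).comp h1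
  have he2 : Tendsto (fun n => 2 * Real.exp (-(√(lam n)))) atTop (𝓝 0) := by
    have := ((Real.tendsto_exp_neg_atTop_nhds_zero.comp hsq).const_mul 2)
    simpa using this
  have he3 : Tendsto (fun n => (|t| / √(lam n)) ^ 2 * S) atTop (𝓝 0) := by
    have := (hτ0.pow 2).mul_const S
    simpa using this
  have hbd := (he1.add he2).add he3
  simp only [add_zero] at hbd
  -- the difference
  have hdiff : Tendsto (fun n => AvC (X n) (fun a => Complex.exp (Complex.I *
      ((t / √(lam n) * ((cnt (P n) (T n) a : ℝ) - lam n) : ℝ) : ℂ))) -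
      Complex.exp (-(Complex.I * ((t / √(lam n) : ℝ) : ℂ) * (lam n : ℂ)) -
      (1 - Complex.exp (Complex.I * ((t / √(lam n) : ℝ) : ℂ))) * (L n : ℂ))) atTop (𝓝 0) := by
    rw [tendsto_zero_iff_norm_tendsto_zero]
    obtain ⟨K, hK⟩ := exists_nat_gt (4 * (B + 2))
    refine squeeze_zero' (Eventually.of_forall fun n => norm_nonneg _) ?_ hbd
    filter_upwards [hC, hlam.eventually_ge_atTop 1, hτ0.eventually_le_const (zero_lt_one),
      hX K, hY2, hD.eventually_le_const (zero_lt_one)] with n h1 hl1 h3 h4 h5 hD1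
    have hl0 : 0 < lam n := by linarith
    set τ : ℝ := t / √(lam n) with hτ
    have hs0 : 0 < √(lam n) := Real.sqrt_pos.2 hl0
    have hs1 : 1 ≤ √(lam n) := Real.one_le_sqrt.2 hl1
    have hs2 : √(lam n) * √(lam n) = lam n := Real.mul_self_sqrt hl0.le
    have hτa : |τ| = |t| / √(lam n) := by rw [hτ, abs_div, abs_of_pos hs0]
    set w : ℂ := 1 - Complex.exp (Complex.I * (τ : ℂ)) with hw
    have hw1 : (1 : ℂ) - w = Complex.exp (Complex.I * (τ : ℂ)) := by rw [hw]; ring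
    have hn1 : ‖Complex.exp (Complex.I * (τ : ℂ))‖ = 1 := by
      rw [mul_comm]
      exact Complex.norm_exp_ofReal_mul_I τ
    have hwn : ‖w‖ ≤ |τ| := by
      rw [hw, norm_sub_rev]
      have := Real.norm_exp_I_mul_ofReal_sub_one_le (x := τ)
      rwa [Real.norm_eq_abs] at this
    have hwle : ‖w‖ ≤ 1 := hwn.trans (by rw [hτa]; exact h3)
    have hwre : 0 ≤ w.re := by
      rw [hw, Complex.sub_re, Complex.one_re, mul_comm, Complex.exp_ofReal_mul_I_re]
      linarith [Real.cos_le_one τ]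
    have hYr : (2 : ℝ) ≤ Y n := by exact_mod_cast h5
    have hXr : (1 : ℝ) ≤ X n := by
      refine le_trans ?_ h4
      exact Real.one_le_rpow (by linarith) (by positivity)
    have hX1 : 1 ≤ X n := by exact_mod_cast hXr
    set m : ℕ := ⌈B * √(lam n)⌉₊ with hm
    have hm1 : B * √(lam n) ≤ m := Nat.le_ceil _
    have hm2 : (m : ℝ) < B * √(lam n) + 1 := Nat.ceil_lt_add_one (by positivity)
    have hgen := genC (P n) (T n) (hT n) hX1 (hY n) (by omega) w hwle (by rw [hw1, hn1]) m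
    have hpe := prod_expC (T n) (fun p hp => (hT n p hp).1) w hwle (by rw [hw1, hn1]) hwre
    -- the first error
    have t1 : ((m : ℝ) + 2) * ((Y n : ℝ) ^ (2 * (m + 1)) / X n) ≤ (1 / 2 : ℝ) ^ (m + 1) := by
      have u1 : (Y n : ℝ) ^ (4 * (m + 1)) ≤ X n := by
        refine le_trans ?_ h4
        rw [← Real.rpow_natCast]
        apply Real.rpow_le_rpow_of_exponent_le (by linarith)
        push_cast
        nlinarith
      have u2 : (Y n : ℝ) ^ (2 * (m + 1)) * 4 ^ (m + 1) ≤ X n := by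
        calc (Y n : ℝ) ^ (2 * (m + 1)) * 4 ^ (m + 1) ≤ (Y n : ℝ) ^ (2 * (m + 1)) * (Y n : ℝ) ^ (2 * (m + 1)) := by
              apply mul_le_mul_of_nonneg_left _ (by positivity)
              rw [pow_mul]
              apply pow_le_pow_left₀ (by norm_num)
              nlinarith
          _ = (Y n : ℝ) ^ (4 * (m + 1)) := by rw [← pow_add]; congr 1; ring
          _ ≤ X n := u1
      have u3 : (m : ℝ) + 2 ≤ 2 ^ (m + 1) := by
        have : m + 2 ≤ 2 ^ (m + 1) := Nat.lt_two_pow_self (n := m + 1)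
        exact_mod_cast this
      rw [mul_div_assoc', div_le_iff₀ (by linarith)]
      calc ((m : ℝ) + 2) * (Y n : ℝ) ^ (2 * (m + 1)) ≤ 2 ^ (m + 1) * (Y n : ℝ) ^ (2 * (m + 1)) :=
            mul_le_mul_of_nonneg_right u3 (by positivity)
        _ = (1 / 2 : ℝ) ^ (m + 1) * ((Y n : ℝ) ^ (2 * (m + 1)) * 4 ^ (m + 1)) := by
            have e4 : (4 : ℝ) ^ (m + 1) = 2 ^ (m + 1) * 2 ^ (m + 1) := by
              rw [← mul_pow]; norm_num
            have e5 : (1 / 2 : ℝ) ^ (m + 1) * 2 ^ (m + 1) = 1 := by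
              rw [← mul_pow]; norm_num
            rw [e4]
            linear_combination (-(2 : ℝ) ^ (m + 1) * (Y n : ℝ) ^ (2 * (m + 1))) * e5
        _ ≤ (1 / 2 : ℝ) ^ (m + 1) * X n := mul_le_mul_of_nonneg_left u2 (by positivity)
    -- the second error
    have hLn : L n ≤ 2 * lam n := by
      have := (abs_le.1 h1).2
      have h10 : L n - lam n ≤ D n := this
      rw [div_le_one hs0] at hD1
      nlinarith
    have hLn0 : 0 ≤ L n := sum_nonneg fun p hp => gg_nonneg (hT n p hp).1.one_le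
    have t2 : 2 * ((‖w‖ * L n) ^ (m + 1) / (m + 1).factorial) ≤ 2 * Real.exp (-(√(lam n))) := by
      have v1 : ‖w‖ * L n ≤ 2 * |t| * √(lam n) := by
        calc ‖w‖ * L n ≤ |τ| * (2 * lam n) := mul_le_mul hwn hLn hLn0 (abs_nonneg _)
          _ = 2 * |t| * √(lam n) := by
              rw [hτa]
              nth_rewrite 2 [← hs2]
              field_simp
      have v2 := tail_bound (z := 2 * |t| * √(lam n)) (by positivity) (k := m + 1) (by
        have e1 : 2 * |t| * √(lam n) * Real.exp 2 = (B - 1) * √(lam n) := by rw [hB]; ring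
        rw [e1]
        push_cast
        nlinarith)
      have v3 : (‖w‖ * L n) ^ (m + 1) / (m + 1).factorial ≤
          (2 * |t| * √(lam n)) ^ (m + 1) / (m + 1).factorial :=
        div_le_div_of_nonneg_right (pow_le_pow_left₀ (mul_nonneg (norm_nonneg _) hLn0) v1 _)
          (Nat.cast_nonneg _)
      have v4 : Real.exp (-((m + 1 : ℕ) : ℝ)) ≤ Real.exp (-(√(lam n))) := by
        apply Real.exp_le_exp.2
        push_cast
        nlinarith
      linarith
    -- the third error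
    have t3 : ‖w‖ ^ 2 * S ≤ (|t| / √(lam n)) ^ 2 * S := by
      rw [← hτa]
      exact mul_le_mul_of_nonneg_right (pow_le_pow_left₀ (norm_nonneg _) hwn 2) hS0
    -- the identity
    have hid : AvC (X n) (fun a => Complex.exp (Complex.I *
        ((τ * ((cnt (P n) (T n) a : ℝ) - lam n) : ℝ) : ℂ))) =
        Complex.exp (-(Complex.I * (τ : ℂ) * (lam n : ℂ))) *
          AvC (X n) (fun a => ∏ p ∈ T n, (1 - w * (I1 (P n) a p : ℂ))) := by
      rw [← avC_mul]
      congr 1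
      funext a
      have e1 : ∏ p ∈ T n, (1 - w * (I1 (P n) a p : ℂ)) =
          Complex.exp (Complex.I * (τ : ℂ)) ^ (cnt (P n) (T n) a) := by
        have e2 : ∀ p ∈ T n, (1 - w * (I1 (P n) a p : ℂ)) =
            if Wi (P n) a p then Complex.exp (Complex.I * (τ : ℂ)) else 1 := by
          intro p _
          unfold I1
          split_ifs
          · rw [Complex.ofReal_one, mul_one, hw1]
          · rw [Complex.ofReal_zero, mul_zero, sub_zero]
        rw [prod_congr rfl e2]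
        unfold cnt
        rw [Finset.prod_ite, Finset.prod_const, Finset.prod_const_one, mul_one]
      rw [e1, ← Complex.exp_nat_mul, ← Complex.exp_add]
      congr 1
      push_cast
      ring
    have hid2 : Complex.exp (-(Complex.I * (τ : ℂ) * (lam n : ℂ)) - w * (L n : ℂ)) =
        Complex.exp (-(Complex.I * (τ : ℂ) * (lam n : ℂ))) * Complex.exp (-(w * (L n : ℂ))) := by
      rw [← Complex.exp_add]
      congr 1
    have hu : ‖Complex.exp (-(Complex.I * (τ : ℂ) * (lam n : ℂ)))‖ = 1 := by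
      have e1 : -(Complex.I * (τ : ℂ) * (lam n : ℂ)) = ((-(τ * lam n) : ℝ) : ℂ) * Complex.I := by
        push_cast
        ring
      rw [e1, Complex.norm_exp_ofReal_mul_I]
    rw [hid, hid2, ← mul_sub, norm_mul, hu, one_mul]
    have h6 := norm_sub_le_norm_sub_add_norm_sub
      (AvC (X n) (fun a => ∏ p ∈ T n, (1 - w * (I1 (P n) a p : ℂ))))
      (∏ p ∈ T n, (1 - w * (gg p : ℂ))) (Complex.exp (-(w * (L n : ℂ))))
    refine h6.trans ?_
    have h7 := hgen
    have h8 : ‖∏ p ∈ T n, (1 - w * (gg p : ℂ)) - Complex.exp (-(w * (L n : ℂ)))‖ ≤ ‖w‖ ^ 2 * S := hpe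
    have h9 : ‖AvC (X n) (fun a => ∏ p ∈ T n, (1 - w * (I1 (P n) a p : ℂ))) -
        ∏ p ∈ T n, (1 - w * (gg p : ℂ))‖ ≤ ((m : ℝ) + 2) * ((Y n : ℝ) ^ (2 * (m + 1)) / X n) +
        2 * ((‖w‖ * L n) ^ (m + 1) / (m + 1).factorial) := hgen
    linarith
  have := hdiff.add hexp
  simp only [sub_add_cancel, zero_add] at this
  exact this

end Run7.h854.WP
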