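import Mathlib
import Pool.Agent.H305R2.MertensM
import Pool.Agent.Run7.h854.WP.Law

set_option autoImplicit false

/-!
# Windows
-/

namespace Run7.h854.WP

open Finset Filter Topology
open scoped Classical
open Pool.Agent.Helper92K9.WI (IsWilson gg)

/-- the primes in the window `(y ^ u, y ^ v]` -/
noncomputable def WW (y : ℕ) (u v : ℝ) : Finset ℕ :=
  (Icc 1 ⌊(y : ℝ) ^ v⌋₊).filter (fun p => p.Prime ∧ (y : ℝ) ^ u < p)

lemma mem_WW {y : ℕ} {u v : ℝ} {p : ℕ} : p ∈ WW y u v ↔ p.Prime ∧ (y : ℝ) ^ u < p ∧ (p : ℝ) ≤ (y : ℝ) ^ v := by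
  unfold WW
  rw [mem_filter, mem_Icc]
  constructor
  · rintro ⟨⟨_, h2⟩, h3, h4⟩
    exact ⟨h3, h4, (Nat.le_floor_iff (by positivity)).1 h2⟩
  · rintro ⟨h1, h2, h3⟩
    exact ⟨⟨h1.one_le, (Nat.le_floor_iff (by positivity)).2 h3⟩, h1, h2⟩

/-- the logarithm of the integer part of a power -/
lemma log_floor {v : ℝ} (hv : 0 < v) :
    Tendsto (fun y : ℕ => Real.log ((⌊(y : ℝ) ^ v⌋₊ : ℕ) : ℝ) / Real.log y) atTop (𝓝 v) := by
  have hlog : Tendsto (fun y : ℕ => Real.log (y : ℝ)) atTop atTop :=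
    Real.tendsto_log_atTop.comp tendsto_natCast_atTop_atTop
  have h0 : Tendsto (fun y : ℕ => Real.log 2 / Real.log (y : ℝ)) atTop (𝓝 0) :=
    hlog.const_div_atTop _
  have h1 : Tendsto (fun y : ℕ => v - Real.log 2 / Real.log (y : ℝ)) atTop (𝓝 v) := by
    have := (tendsto_const_nhds (x := v)).sub h0
    rwa [sub_zero] at this
  have hpow : Tendsto (fun y : ℕ => (y : ℝ) ^ v) atTop atTop :=
    (tendsto_rpow_atTop hv).comp tendsto_natCast_atTop_atTop
  refine tendsto_of_tendsto_of_tendsto_of_le_of_le' h1 tendsto_const_nhds ?_ ?_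
  · filter_upwards [hlog.eventually_gt_atTop 0, hpow.eventually_ge_atTop 2, eventually_ge_atTop 1] with y h2 h3 h4
    have hy0 : (0 : ℝ) < y := by exact_mod_cast h4
    rw [sub_le_iff_le_add, ← add_div, le_div_iff₀ h2]
    have h5 : (y : ℝ) ^ v / 2 ≤ ((⌊(y : ℝ) ^ v⌋₊ : ℕ) : ℝ) := by
      have := Nat.lt_floor_add_one ((y : ℝ) ^ v)
      linarith
    have h6 := Real.log_le_log (by positivity) h5
    rw [Real.log_div (by positivity) (by norm_num), Real.log_rpow hy0] at h6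
    linarith
  · filter_upwards [hlog.eventually_gt_atTop 0, hpow.eventually_ge_atTop 2, eventually_ge_atTop 1] with y h2 h3 h4
    have hy0 : (0 : ℝ) < y := by exact_mod_cast h4
    rw [div_le_iff₀ h2]
    have h5 : ((⌊(y : ℝ) ^ v⌋₊ : ℕ) : ℝ) ≤ (y : ℝ) ^ v := Nat.floor_le (by positivity)
    have h7 : (0 : ℝ) < ((⌊(y : ℝ) ^ v⌋₊ : ℕ) : ℝ) := by
      have := Nat.lt_floor_add_one ((y : ℝ) ^ v)
      linarith
    have h6 := Real.log_le_log h7 h5
    rwa [Real.log_rpow hy0] at h6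

/-- the sum of the reciprocals of the primes up to `y ^ v` -/
lemma mert_pow {M : ℝ} (hM : Tendsto (fun N : ℕ => ∑ p ∈ (Finset.Icc 1 N).filter Nat.Prime, (1 : ℝ) / p -
    Real.log (Real.log N)) atTop (𝓝 M)) {v : ℝ} (hv : 0 < v) :
    Tendsto (fun y : ℕ => ∑ p ∈ (Icc 1 ⌊(y : ℝ) ^ v⌋₊).filter Nat.Prime, (1 : ℝ) / p -
      Real.log (Real.log y)) atTop (𝓝 (M + Real.log v)) := by
  have hpow : Tendsto (fun y : ℕ => (y : ℝ) ^ v) atTop atTop :=
    (tendsto_rpow_atTop hv).comp tendsto_natCast_atTop_atTop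
  have hfl : Tendsto (fun y : ℕ => ⌊(y : ℝ) ^ v⌋₊) atTop atTop := tendsto_nat_floor_atTop.comp hpow
  have h1 := hM.comp hfl
  have h2 := (Real.continuousAt_log hv.ne').tendsto.comp (log_floor hv)
  have h3 := h1.add h2
  refine h3.congr' ?_
  have hlog : Tendsto (fun y : ℕ => Real.log (y : ℝ)) atTop atTop :=
    Real.tendsto_log_atTop.comp tendsto_natCast_atTop_atTop
  have hlog2 : Tendsto (fun y : ℕ => Real.log ((⌊(y : ℝ) ^ v⌋₊ : ℕ) : ℝ)) atTop atTop := hlog.comp hfl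
  filter_upwards [hlog.eventually_gt_atTop 0, hlog2.eventually_gt_atTop 0] with y h4 h5
  simp only [Function.comp_apply]
  rw [Real.log_div h5.ne' h4.ne']
  ring

lemma mass_WW {u v : ℝ} (hu : 0 < u) (huv : u < v) :
    Tendsto (fun y : ℕ => ∑ p ∈ WW y u v, (1 : ℝ) / p) atTop (𝓝 (Real.log (v / u))) := by
  obtain ⟨M, hM⟩ := Pool.Agent.H305R2.mertens_inv_tendsto
  have hv : 0 < v := hu.trans huv
  have h1 := (mert_pow hM hv).sub (mert_pow hM hu)
  have e : M + Real.log v - (M + Real.log u) = Real.log (v / u) := by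
    rw [Real.log_div hv.ne' hu.ne']
    ring
  rw [e] at h1
  refine h1.congr' ?_
  filter_upwards [eventually_ge_atTop 1] with y hy
  have hy1 : (1 : ℝ) ≤ y := by exact_mod_cast hy
  have h2 : (Icc 1 ⌊(y : ℝ) ^ v⌋₊).filter Nat.Prime =
      WW y u v ∪ (Icc 1 ⌊(y : ℝ) ^ u⌋₊).filter Nat.Prime := by
    ext p
    rw [mem_union, mem_WW, mem_filter, mem_filter, mem_Icc, mem_Icc]
    have hle : (y : ℝ) ^ u ≤ (y : ℝ) ^ v := Real.rpow_le_rpow_of_exponent_le hy1 huv.le
    constructor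
    · rintro ⟨⟨h3, h4⟩, h5⟩
      rw [Nat.le_floor_iff (by positivity)] at h4
      rcases lt_or_ge ((y : ℝ) ^ u) (p : ℝ) with h | h
      · exact Or.inl ⟨h5, h, h4⟩
      · exact Or.inr ⟨⟨h3, (Nat.le_floor_iff (by positivity)).2 h⟩, h5⟩
    · rintro (⟨h3, _, h5⟩ | ⟨⟨h3, h4⟩, h5⟩)
      · exact ⟨⟨h3.one_le, (Nat.le_floor_iff (by positivity)).2 h5⟩, h3⟩
      · refine ⟨⟨h3, ?_⟩, h5⟩
        rw [Nat.le_floor_iff (by positivity)] at h4 ⊢
        linarith
  have h3 : Disjoint (WW y u v) ((Icc 1 ⌊(y : ℝ) ^ u⌋₊).filter Nat.Prime) := by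
    rw [disjoint_left]
    intro p hp hp2
    rw [mem_WW] at hp
    rw [mem_filter, mem_Icc, Nat.le_floor_iff (by positivity)] at hp2
    linarith [hp.2.1, hp2.1.2]
  rw [h2, sum_union h3]
  ring

/-- **The law for windows, uniformly.** -/
theorem windows {r : ℕ} (u v : Fin r → ℝ) (huv : ∀ s, 0 < u s ∧ u s < v s)
    (hd : Pairwise fun s s' => v s ≤ u s' ∨ v s' ≤ u s) (k : Fin r → ℕ) {ε : ℝ} (hε : 0 < ε) :
    ∃ K y0 : ℕ, ∀ y : ℕ, y0 ≤ y → ∀ X : ℕ, y ^ K ≤ X → ∀ P : Par,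
      (∀ s, ∀ p ∈ WW y (u s) (v s), ¬ (p : ℤ) ∣ P.q) →
      |(((Icc 1 X).filter (fun i : ℕ => ∀ s,
        ((WW y (u s) (v s)).filter (fun p => Wi P i p)).card = k s)).card : ℝ) / X -
        ∏ s, (u s / v s * Real.log (v s / u s) ^ k s / (k s).factorial)| ≤ ε := by
  by_contra hcon
  push Not at hcon
  choose y hy X hX P hP hbad using fun n : ℕ => hcon n (n + 2)
  have hF : Fam X (fun n s => WW (y n) (u s) (v s)) (fun s => Real.log (v s / u s)) := by
    have hytop : Tendsto y atTop atTop := tendsto_atTop_mono (fun n => (by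
      have := hy n
      omega : n ≤ y n)) tendsto_id
    refine ⟨?_, ?_, ?_, ?_, ?_, ?_⟩
    · intro n s s' hss
      rw [disjoint_left]
      intro p hp hp2
      rw [mem_WW] at hp hp2
      have hy1 : (1 : ℝ) ≤ y n := by
        have := hy n
        exact_mod_cast (by omega : 1 ≤ y n)
      rcases hd hss with h | h
      · have := Real.rpow_le_rpow_of_exponent_le hy1 h
        linarith [hp.2.2, hp2.2.1]
      · have := Real.rpow_le_rpow_of_exponent_le hy1 h
        linarith [hp.2.1, hp2.2.2]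
    · intro n s p hp
      exact (mem_WW.1 hp).1
    · intro M
      have h1 : ∀ s, ∀ᶠ n in atTop, (M : ℝ) < (y n : ℝ) ^ (u s) := fun s =>
        (((tendsto_rpow_atTop (huv s).1).comp tendsto_natCast_atTop_atTop).comp hytop).eventually_gt_atTop _
      filter_upwards [eventually_all.2 h1] with n hn s p hp
      have h2 := (mem_WW.1 hp).2.1
      exact_mod_cast (hn s).trans h2
    · refine tendsto_atTop_mono' atTop ?_ hytop
      filter_upwards [eventually_ge_atTop 1] with n hn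
      refine le_trans ?_ (hX n)
      exact Nat.le_self_pow (by omega) _
    · intro K
      obtain ⟨A, hA⟩ := exists_nat_gt ((∑ s, v s) * K)
      filter_upwards [eventually_ge_atTop A] with n hn s p hp
      have h1 := (mem_WW.1 hp).2.2
      have hy1 : (1 : ℝ) ≤ y n := by
        have := hy n
        exact_mod_cast (by omega : 1 ≤ y n)
      have hv : v s ≤ ∑ s, v s := Finset.single_le_sum (f := v) (fun s _ => ((huv s).1.trans (huv s).2).le) (mem_univ s)
      have h2 : ((p : ℝ)) ^ K ≤ (y n : ℝ) ^ n := by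
        calc ((p : ℝ)) ^ K ≤ ((y n : ℝ) ^ (v s)) ^ K := pow_le_pow_left₀ (Nat.cast_nonneg _) h1 _
          _ = (y n : ℝ) ^ (v s * K) := by rw [← Real.rpow_natCast, ← Real.rpow_mul (by linarith)]
          _ ≤ (y n : ℝ) ^ ((n : ℕ) : ℝ) := by
              apply Real.rpow_le_rpow_of_exponent_le hy1
              have h3 : v s * K ≤ (∑ s, v s) * K := mul_le_mul_of_nonneg_right hv (Nat.cast_nonneg _)
              have h4 : (A : ℝ) ≤ n := by exact_mod_cast hn
              linarith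
          _ = (y n : ℝ) ^ n := Real.rpow_natCast _ _
      have h3 : p ^ K ≤ y n ^ n := by exact_mod_cast h2
      exact h3.trans (hX n)
    · intro s
      exact (mass_WW (huv s).1 (huv s).2).comp hytop
  have hlaw := law hF P (fun n s p hp => hP n s p hp) k
  have e : ∏ s, (Real.exp (-Real.log (v s / u s)) * Real.log (v s / u s) ^ k s / ((k s).factorial : ℝ)) =
      ∏ s, (u s / v s * Real.log (v s / u s) ^ k s / (k s).factorial) := by
    refine prod_congr rfl fun s _ => ?_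
    have h1 : 0 < v s / u s := div_pos ((huv s).1.trans (huv s).2) (huv s).1
    rw [Real.exp_neg, Real.exp_log h1, inv_div]
  rw [e] at hlaw
  obtain ⟨n, hn⟩ := ((Metric.tendsto_nhds.1 hlaw) ε hε).exists
  rw [Real.dist_eq] at hn
  exact absurd (hbad n) (not_lt.2 hn.le)

end Run7.h854.WP
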